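import Pool.Agent.Helper71.SN.Goals

/-!
# MP_9b2a83_an: packet CONFIG
-/

set_option autoImplicit false

namespace Pool.Agent.Helper71.SN.PkCONFIG

open Pool.Agent.Helper71.SN Pool.Agent.Helper39.Net

/-- The size of `b ^ L`. -/
theorem size {d b L : ℕ} (hd : 2 ≤ d) (hL : 1 ≤ L) (hb : (L + d) ^ (2 * d) ≤ b) :
    8 * 2 ^ d * d ^ (d - 1) < b ^ L * L ^ (d - 1) := by
  obtain ⟨k, rfl⟩ : ∃ k, d = k + 2 := ⟨d - 2, by omega⟩
  have h1 : (4 * (k + 2)) ^ (k + 2) < (L + (k + 2)) ^ (2 * (k + 2)) := by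
    rw [pow_mul]
    refine Nat.pow_lt_pow_left ?_ (by omega)
    have h2 : (1 + (k + 2)) ^ 2 ≤ (L + (k + 2)) ^ 2 := Nat.pow_le_pow_left (by omega) 2
    nlinarith
  have h3 : 8 * 2 ^ (k + 2) * (k + 2) ^ (k + 2 - 1) ≤ (4 * (k + 2)) ^ (k + 2) := by
    have e1 : k + 2 - 1 = k + 1 := by omega
    rw [e1]
    have h4 : 8 ≤ 2 ^ (k + 2) * (k + 2) := by
      have : 1 ≤ 2 ^ k := Nat.one_le_two_pow
      rw [pow_add]
      nlinarith
    calc 8 * 2 ^ (k + 2) * (k + 2) ^ (k + 1)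
        = 8 * (2 ^ (k + 2) * (k + 2) ^ (k + 1)) := by ring
      _ ≤ (2 ^ (k + 2) * (k + 2)) * (2 ^ (k + 2) * (k + 2) ^ (k + 1)) :=
          Nat.mul_le_mul_right _ h4
      _ = (2 ^ (k + 2) * 2 ^ (k + 2)) * (k + 2) ^ (k + 2) := by ring
      _ = (4 * (k + 2)) ^ (k + 2) := by
          rw [← mul_pow, mul_pow 4]
          norm_num
  have hb0 : 0 < b := lt_of_lt_of_le (by positivity) hb
  have h5 : b ≤ b ^ L * L ^ (k + 2 - 1) := by
    calc b = b ^ 1 * 1 := by ring
      _ ≤ b ^ L * L ^ (k + 2 - 1) :=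
          Nat.mul_le_mul (Nat.pow_le_pow_right hb0 hL) (Nat.one_le_pow _ _ hL)
  omega

theorem maps_card (d b L : ℕ) : Fintype.card (Maps d b L) = b ^ ((L + 1) * d * b ^ L) := by
  simp only [Maps, Fintype.card_fun, Fintype.card_fin]
  rw [← pow_mul, ← pow_mul, mul_assoc]

/-- Averaging. -/
theorem average {α : Type} [Fintype α] [DecidableEq α] (X : α → ℕ) (Bad : Finset α)
    (T Y N2 C6 : ℕ) (hT0 : 0 < T) (hT : Fintype.card α = T) (hX : ∀ F, X F ≤ N2)
    (hBad : Bad.card * N2 ≤ T) (hE : T * Y ≤ C6 * ∑ F, X F) (hY : 4 * C6 < 3 * Y) :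
    ∃ F, F ∉ Bad ∧ Y ≤ 4 * C6 * X F := by
  by_contra hcon
  push Not at hcon
  have h1 : ∑ F, X F = ∑ F ∈ Badᶜ, X F + ∑ F ∈ Bad, X F := by
    rw [add_comm]
    exact (Finset.sum_add_sum_compl Bad X).symm
  have h2 : ∑ F ∈ Bad, X F ≤ T := by
    calc ∑ F ∈ Bad, X F ≤ ∑ _F ∈ Bad, N2 := Finset.sum_le_sum fun F _ => hX F
      _ = Bad.card * N2 := by rw [Finset.sum_const, smul_eq_mul]
      _ ≤ T := hBad
  have h3 : 4 * C6 * ∑ F ∈ Badᶜ, X F ≤ T * Y := by
    rw [Finset.mul_sum]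
    calc ∑ F ∈ Badᶜ, 4 * C6 * X F ≤ ∑ _F ∈ Badᶜ, Y :=
          Finset.sum_le_sum fun F hF => (hcon F (Finset.mem_compl.1 hF)).le
      _ = (Badᶜ).card * Y := by rw [Finset.sum_const, smul_eq_mul]
      _ ≤ T * Y := by
          refine Nat.mul_le_mul_right _ ?_
          rw [← hT]
          exact Finset.card_le_univ _
  have h4 : 4 * (T * Y) ≤ T * Y + 4 * C6 * T := by
    calc 4 * (T * Y) ≤ 4 * (C6 * ∑ F, X F) := Nat.mul_le_mul_left _ hE
      _ = 4 * C6 * ∑ F ∈ Badᶜ, X F + 4 * C6 * ∑ F ∈ Bad, X F := by rw [h1]; ring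
      _ ≤ T * Y + 4 * C6 * T := Nat.add_le_add h3 (Nat.mul_le_mul_left _ h2)
  have h5 : T * (4 * C6) < T * (3 * Y) := Nat.mul_lt_mul_of_pos_left hY hT0
  have h6 : T * (3 * Y) ≤ T * (4 * C6) := by
    have e1 : T * (3 * Y) = 3 * (T * Y) := by ring
    have e2 : T * (4 * C6) = 4 * C6 * T := by ring
    omega
  omega

open Classical in
/-- A good map gives a configuration. -/
theorem config_of {d b L K : ℕ} (hd : 2 ≤ d) (F : Maps d b L)
    (hF : ∀ s : Fin d → Fin (b ^ (L + 1)), (Finset.univ.filter fun k : Fin (b ^ L) =>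
      L + 1 ≤ ∑ c, agr b (L + 1) (F k c) (s c)).card ≤ K) :
    ∃ (M : Finset (Pt d)) (P : Finset (Pt d × Pt d)), M.card ≤ b ^ L ∧
      Config d b L K M P ∧
      P.card = (Finset.univ.filter fun q : Fin (b ^ L) × Fin (b ^ L) => Good F q.1 q.2).card := by
  set va : Fin (b ^ L) → Pt d := fun k c => (F k c).val with hva
  have hlt : ∀ i j, Good F i j → va i ≠ va j := by
    intro i j h heq
    have h1 := h.1 ⟨0, by omega⟩
    have h2 := congrFun heq ⟨0, by omega⟩
    simp only [hva] at h2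
    omega
  refine ⟨Finset.univ.image va, (Finset.univ.filter fun q : Fin (b ^ L) × Fin (b ^ L) =>
    Good F q.1 q.2).image (fun q => (va q.1, va q.2)), ?_, ?_, ?_⟩
  · exact Finset.card_image_le.trans (by simp)
  · refine ⟨?_, ?_, ?_, ?_, ?_, ?_, ?_⟩
    · intro x hx c
      obtain ⟨k, _, rfl⟩ := Finset.mem_image.1 hx
      exact (F k c).isLt
    · intro p hp
      obtain ⟨q, hq, rfl⟩ := Finset.mem_image.1 hp
      exact Finset.mem_image_of_mem _ (Finset.mem_univ _)
    · intro p hp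
      obtain ⟨q, hq, rfl⟩ := Finset.mem_image.1 hp
      exact Finset.mem_image_of_mem _ (Finset.mem_univ _)
    · intro p hp c
      obtain ⟨q, hq, rfl⟩ := Finset.mem_image.1 hp
      exact (Finset.mem_filter.1 hq).2.1 c
    · intro p hp
      obtain ⟨q, hq, rfl⟩ := Finset.mem_image.1 hp
      exact (Finset.mem_filter.1 hq).2.2.1
    · intro p hp z hz h
      obtain ⟨q, hq, rfl⟩ := Finset.mem_image.1 hp
      obtain ⟨k, _, rfl⟩ := Finset.mem_image.1 hz
      rcases (Finset.mem_filter.1 hq).2.2.2 k h with h1 | h1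
      · left
        rw [h1]
      · right
        rw [h1]
    · intro s hs
      refine le_trans ?_ (hF (fun c => ⟨s c, hs c⟩))
      refine le_trans (Finset.card_le_card ?_) (Finset.card_image_le (f := va))
      intro x hx
      obtain ⟨hx1, hx2⟩ := Finset.mem_filter.1 hx
      obtain ⟨k, _, rfl⟩ := Finset.mem_image.1 hx1
      exact Finset.mem_image.2 ⟨k, Finset.mem_filter.2 ⟨Finset.mem_univ _, hx2⟩, rfl⟩
  · refine Finset.card_image_of_injOn ?_
    rintro ⟨i, j⟩ hq ⟨i', j'⟩ hq' heq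
    have h1 : Good F i j := (Finset.mem_filter.1 hq).2
    have h2 : Good F i' j' := (Finset.mem_filter.1 hq').2
    obtain ⟨e1, e2⟩ := Prod.mk.inj heq
    simp only at e1 e2
    have g1 : i' = i := by
      rcases h1.2.2 i' (fun c => by
        have h3 : (F i' c).val = (F i c).val := (congrFun e1 c).symm
        rw [h3, agr_self]
        exact agr_le _ _ _ _) with h3 | h3
      · exact h3
      · exact absurd (by rw [e1, h3] : va i = va j) (hlt i j h1)
    have g2 : j' = j := by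
      rcases h1.2.2 j' (fun c => by
        have h3 : (F j' c).val = (F j c).val := (congrFun e2 c).symm
        rw [h3]) with h3 | h3
      · exact absurd (by rw [e2, h3] : va j = va i).symm (hlt i j h1)
      · exact h3
    rw [g1, g2]

theorem thm : G_EXPB → G_BAD → G_CONFIG := by
  classical
  intro hE hB d b L hd hL hb
  have h1 := hE d b L hd hL hb
  have h2 := hB d b L hd hL hb
  have hs := size hd hL hb
  have hb0 : 0 < b := lt_of_lt_of_le (by positivity) hb
  set X : Maps d b L → ℕ := fun F => (Finset.univ.filter fun q : Fin (b ^ L) × Fin (b ^ L) =>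
      Good F q.1 q.2).card with hX
  obtain ⟨F, hF1, hF2⟩ := average X (Finset.univ.filter fun F : Maps d b L =>
      ∃ s : Fin d → Fin (b ^ (L + 1)), 6 * d * L + 1 ≤ (Finset.univ.filter fun k : Fin (b ^ L) =>
      L + 1 ≤ ∑ c, agr b (L + 1) (F k c) (s c)).card) (b ^ ((L + 1) * d * b ^ L))
      (b ^ L * L ^ (d - 1)) (b ^ (2 * L)) (6 * 2 ^ d * d ^ (d - 1)) (by positivity)
      (maps_card d b L) (fun F => by
        refine (Finset.card_le_univ _).trans ?_
        rw [Fintype.card_prod, Fintype.card_fin, two_mul, pow_add]) (by convert h2) (by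
        rw [← mul_assoc]
        convert h1) (by
        have : 4 * (6 * 2 ^ d * d ^ (d - 1)) = 3 * (8 * 2 ^ d * d ^ (d - 1)) := by ring
        omega)
  rw [Finset.mem_filter] at hF1
  push Not at hF1
  obtain ⟨M, P, hM, hC, hP⟩ := config_of (K := 6 * d * L) hd F (fun s => by
    have := hF1 (Finset.mem_univ _) s
    omega)
  refine ⟨M, P, hM, hC, ?_⟩
  rw [hP]
  refine hF2.trans (le_of_eq ?_)
  simp only [hX]
  ring

end Pool.Agent.Helper71.SN.PkCONFIG
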